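import Mathlib
import Pool.Agent.Y742.DI.Pol

/-!
# The linear algebra of the theorem on greatest common divisors with moving coefficients

Job FG-G (helper731).
-/

set_option autoImplicit false

open Finset Module MvPolynomial

namespace Pool.Agent.Y884.FG

open Pool.Agent.Y742.DI

/-- a sequence of polynomial growth -/
theorem gr0 (β : ℕ → ℕ) (s : ℕ) (h0 : 1 ≤ β 0) (h1 : ∀ r, β r ≤ (r + 1) ^ s) (η : ℝ)
    (hη : 0 < η) : ∃ r, (β (r + 1) : ℝ) ≤ (1 + η) * β r := by
  by_contra hcon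
  push Not at hcon
  have h2 : ∀ r, (1 + η) ^ r ≤ (β r : ℝ) := by
    intro r
    induction r with
    | zero =>
      rw [pow_zero]
      exact_mod_cast h0
    | succ r ih =>
      refine le_trans ?_ (hcon r).le
      rw [pow_succ, mul_comm]
      exact mul_le_mul_of_nonneg_left ih (by linarith)
  have h3 := tendsto_pow_const_div_const_pow_of_one_lt s (r := 1 + η) (by linarith)
  have h4 : ∀ᶠ n : ℕ in Filter.atTop, (n : ℝ) ^ s / (1 + η) ^ n < (1 + η)⁻¹ :=
    h3.eventually (gt_mem_nhds (by positivity))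
  obtain ⟨n, hn⟩ := (Filter.eventually_atTop.1 h4)
  have h5 := hn (n + 1) (by omega)
  have h6 := h2 n
  have h7 : (β n : ℝ) ≤ ((n : ℝ) + 1) ^ s := by exact_mod_cast h1 n
  have h8 : (0 : ℝ) < (1 + η) ^ (n + 1) := by positivity
  rw [div_lt_iff₀ h8] at h5
  have h9 : (1 + η)⁻¹ * (1 + η) ^ (n + 1) = (1 + η) ^ n := by
    rw [pow_succ]
    field_simp
  rw [h9] at h5
  push_cast at h5
  linarith

variable {k0 E : Type} [Field k0] [Field E] [Algebra k0 E] {t : ℕ}

/-- the multiples by monomials -/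
noncomputable def zp (P Q : MvPolynomial (Fin t) E) (m : ℕ) :
    (Sx t (m - P.totalDegree)) ⊕ (Sx t (m - Q.totalDegree)) → MvPolynomial (Fin t) E :=
  Sum.elim (fun I => monomial (fs I.1) 1 * P) (fun I => monomial (fs I.1) 1 * Q)

theorem mul_exp {n : ℕ} (α p : MvPolynomial (Fin t) E) (hα : α.totalDegree ≤ n) :
    α * p = ∑ I : Sx t n, coeff (fs I.1) α • (monomial (fs I.1) 1 * p) := by
  conv_lhs => rw [← toPol_coef α hα]
  rw [toPol_apply, Finset.sum_mul]
  refine Finset.sum_congr rfl fun I _ => ?_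
  rw [coef_apply, ← smul_mul_assoc, smul_monomial, smul_eq_mul, mul_one]

theorem cod (ht : 1 ≤ t) (P Q : MvPolynomial (Fin t) E) (hQ : Q ≠ 0) (hPQ : IsRelPrime Q P)
    (m : ℕ) (hm : P.totalDegree + Q.totalDegree ≤ m) :
    (m + 1) ^ 2 * (Sx t m).card ≤
      (m + 1) ^ 2 * finrank E (Submodule.span E (Set.range fun i => coef E t m (zp P Q m i))) +
        P.totalDegree * Q.totalDegree * t ^ t * (Sx t m).card := by
  have h1 := dim_lower P Q hQ hPQ m hm
    (Submodule.span E (Set.range fun i => coef E t m (zp P Q m i))) (by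
      intro α β hα hβ
      rw [mul_exp α P hα, mul_exp β Q hβ, map_add, map_sum, map_sum]
      refine Submodule.add_mem _ (Submodule.sum_mem _ fun I _ => ?_)
        (Submodule.sum_mem _ fun I _ => ?_)
      · rw [map_smul]
        exact Submodule.smul_mem _ _ (Submodule.subset_span ⟨Sum.inl I, rfl⟩)
      · rw [map_smul]
        exact Submodule.smul_mem _ _ (Submodule.subset_span ⟨Sum.inr I, rfl⟩))
  have h2 := Sx_diff t P.totalDegree Q.totalDegree ht m hm
  have h3 := Sx_lower t m ht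
  have h4 : P.totalDegree * Q.totalDegree * (m + 1) ^ t ≤
      P.totalDegree * Q.totalDegree * (t ^ t * (Sx t m).card) := Nat.mul_le_mul_left _ h3
  have h5 := Nat.mul_le_mul_left ((m + 1) ^ 2) h1
  rw [mul_add, mul_add] at h2 h5
  rw [← mul_assoc] at h4
  omega

theorem card_Sx_le (s r : ℕ) : (Sx s r).card ≤ (r + 1) ^ s := by
  unfold Sx
  refine (Finset.card_filter_le _ _).trans ?_
  rw [Fintype.card_piFinset]
  simp

/-- the products -/
noncomputable def wv {s : ℕ} (c : Fin s → E) (e : Fin s → ℕ) : E := ∏ i, c i ^ e i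

/-- the span of the products of at most `r` elements -/
noncomputable def Ws (k0 : Type) [Field k0] [Algebra k0 E] {s : ℕ} (c : Fin s → E) (r : ℕ) :
    Submodule k0 E := Submodule.span k0 (Set.range fun e : Sx s r => wv c e.1)

instance {s : ℕ} (c : Fin s → E) (r : ℕ) : FiniteDimensional k0 (Ws k0 c r) :=
  FiniteDimensional.span_of_finite k0 (Set.finite_range _)

theorem Ws_mul {s : ℕ} (c : Fin s → E) (r : ℕ) (e : Sx s r) (i : Fin s) :
    wv c e.1 * c i ∈ Ws k0 c (r + 1) := by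
  classical
  refine Submodule.subset_span ⟨⟨fun j => e.1 j + if j = i then 1 else 0, ?_⟩, ?_⟩
  · rw [mem_Sx, Finset.sum_add_distrib]
    have := (mem_Sx _).1 e.2
    simp only [Finset.sum_ite_eq', Finset.mem_univ, if_true]
    omega
  · show wv c (fun j => e.1 j + if j = i then 1 else 0) = _
    unfold wv
    simp only [pow_add, Finset.prod_mul_distrib]
    congr 1
    rw [Finset.prod_eq_single i]
    · simp
    · intro j _ hj
      simp [hj]
    · intro h
      exact absurd (Finset.mem_univ _) h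

theorem Ws_one {s : ℕ} (c : Fin s → E) (r : ℕ) : (1 : E) ∈ Ws k0 c r := by
  refine Submodule.subset_span ⟨⟨fun _ => 0, ?_⟩, ?_⟩
  · rw [mem_Sx]
    simp
  · show wv c (fun _ => 0) = 1
    simp [wv]

theorem coeff_mono_mul {s : ℕ} (c : Fin s → E) (p : MvPolynomial (Fin t) E)
    (hc : ∀ x ∈ p.support, ∃ i, c i = coeff x p) (I b : Fin t →₀ ℕ) :
    coeff b (monomial I 1 * p) = 0 ∨ ∃ i, c i = coeff b (monomial I 1 * p) := by
  classical
  rw [coeff_monomial_mul']
  split_ifs with h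
  · rw [one_mul]
    by_cases h0 : coeff (b - I) p = 0
    · exact Or.inl h0
    · exact Or.inr (hc _ (mem_support_iff.2 h0))
  · exact Or.inl rfl

theorem zp_deg (P Q : MvPolynomial (Fin t) E) (m : ℕ) (hm : P.totalDegree + Q.totalDegree ≤ m)
    (i) : (zp P Q m i).totalDegree ≤ m := by
  have hdeg : ∀ (n : ℕ) (I : Sx t (m - n)) (p : MvPolynomial (Fin t) E), p.totalDegree = n →
      n ≤ m → (monomial (fs I.1) 1 * p).totalDegree ≤ m := by
    intro n I p hp hnm
    refine (totalDegree_mul _ _).trans ?_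
    have h2 := totalDegree_monomial_le (fs I.1) (1 : E)
    have h3 := (mem_Sx I.1).1 I.2
    rw [← fs_sum] at h3
    have h4 : (monomial (fs I.1) (1 : E)).totalDegree ≤ m - n := h2.trans h3
    omega
  rcases i with I | I
  · exact hdeg _ I P rfl (by omega)
  · exact hdeg _ I Q rfl (by omega)

theorem zp_ideal (P Q : MvPolynomial (Fin t) E) (m : ℕ) (hm : P.totalDegree + Q.totalDegree ≤ m)
    (i) (a : E) : ∃ A A' : MvPolynomial (Fin t) E,
      a • toPol E t m (coef E t m (zp P Q m i)) = A * P + A' * Q := by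
  rw [toPol_coef _ (zp_deg P Q m hm i)]
  rcases i with I | I
  · refine ⟨a • monomial (fs I.1) 1, 0, ?_⟩
    rw [zero_mul, add_zero, smul_mul_assoc]
    rfl
  · refine ⟨0, a • monomial (fs I.1) 1, ?_⟩
    rw [zero_mul, zero_add, smul_mul_assoc]
    rfl

theorem li_prod {κ1 κ2 B : Type} (w : κ1 → E) (z : κ2 → (B → E))
    (h1 : LinearIndependent k0 w) (h2 : LinearIndependent E z) :
    LinearIndependent k0 (fun p : κ1 × κ2 => w p.1 • z p.2) :=
  linearIndependent_smul h1 h2

theorem num {m s n β β0 R ε : ℝ} (hm0 : 0 ≤ m) (hsr : 0 ≤ s) (hb0 : 0 ≤ β0) (hR0 : 0 ≤ R)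
    (hε : 0 < ε) (hmR : 2 * R ≤ m + 1) (hmε : 8 * R ≤ ε * (m + 1))
    (hcodr : (m + 1) ^ 2 * (s - n) ≤ R * s) (hr' : β ≤ (1 + ε / (8 * (m + 1))) * β0) :
    2 * m * (s * β - β0 * n) ≤ ε * (β0 * n) := by
  have hm1 : 0 < m + 1 := by linarith
  have hs2n : s ≤ 2 * n := by
    have h1 : (m + 1) ^ 2 * (s - n) ≤ (m + 1) ^ 2 * (s / 2) := by
      refine hcodr.trans ?_
      have h2 : 2 * R ≤ (m + 1) ^ 2 := by nlinarith
      nlinarith
    have h2 := le_of_mul_le_mul_left h1 (by positivity)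
    linarith
  have h1 : 2 * m * (s - n) ≤ ε / 2 * n := by
    have h2 : (m + 1) ^ 2 * (2 * m * (s - n)) ≤ (m + 1) ^ 2 * (ε / 2 * n) := by
      calc (m + 1) ^ 2 * (2 * m * (s - n)) = 2 * m * ((m + 1) ^ 2 * (s - n)) := by ring
        _ ≤ 2 * m * (R * s) := mul_le_mul_of_nonneg_left hcodr (by positivity)
        _ ≤ 2 * (m + 1) * (R * s) := by
            have : 0 ≤ R * s := by positivity
            nlinarith
        _ = (m + 1) * s / 4 * (8 * R) := by ring
        _ ≤ (m + 1) * s / 4 * (ε * (m + 1)) :=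
            mul_le_mul_of_nonneg_left hmε (by positivity)
        _ = (m + 1) ^ 2 * (ε / 4 * s) := by ring
        _ ≤ (m + 1) ^ 2 * (ε / 2 * n) := by
            refine mul_le_mul_of_nonneg_left ?_ (by positivity)
            nlinarith
    exact le_of_mul_le_mul_left h2 (by positivity)
  have h2 : 2 * m * (ε / (8 * (m + 1)) * s) ≤ ε / 2 * n := by
    have h3 : 2 * m * (ε / (8 * (m + 1)) * s) = (m / (m + 1)) * (ε / 4 * s) := by
      field_simp
      ring
    have h4 : m / (m + 1) ≤ 1 := by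
      rw [div_le_one hm1]
      linarith
    rw [h3]
    calc m / (m + 1) * (ε / 4 * s) ≤ 1 * (ε / 4 * s) :=
          mul_le_mul_of_nonneg_right h4 (by positivity)
      _ ≤ ε / 2 * n := by nlinarith
  calc 2 * m * (s * β - β0 * n) ≤
        2 * m * (s * ((1 + ε / (8 * (m + 1))) * β0) - β0 * n) := by
        refine mul_le_mul_of_nonneg_left ?_ (by positivity)
        have := mul_le_mul_of_nonneg_left hr' hsr
        linarith
    _ = β0 * (2 * m * (s - n) + 2 * m * (ε / (8 * (m + 1)) * s)) := by ring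
    _ ≤ β0 * (ε / 2 * n + ε / 2 * n) :=
        mul_le_mul_of_nonneg_left (add_le_add h1 h2) hb0
    _ = ε * (β0 * n) := by ring

/-- the main lemma -/
theorem alg (k0 : Type) [Field k0] [Algebra k0 E] (ht : 1 ≤ t) (P Q : MvPolynomial (Fin t) E)
    (hQ : Q ≠ 0) (hPQ : IsRelPrime Q P) (ε : ℝ) (hε : 0 < ε) :
    ∃ (m β : ℕ) (d : Fin β → E) (V : Submodule k0 (Sx t m × Fin β → k0)),
      LinearIndependent k0 d ∧
      (∀ f ∈ V, ∃ A A' : MvPolynomial (Fin t) E,
        toPol E t m (fun b => ∑ l, f (b, l) • d l) = A * P + A' * Q) ∧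
      0 < finrank k0 V ∧
      2 * (m : ℝ) * ((Fintype.card (Sx t m × Fin β) : ℝ) - finrank k0 V) ≤
        ε * finrank k0 V := by
  classical
  obtain ⟨R, hR⟩ : ∃ R : ℕ, R = P.totalDegree * Q.totalDegree * t ^ t := ⟨_, rfl⟩
  obtain ⟨M1, hM1⟩ := exists_nat_ge (8 * R / ε)
  obtain ⟨m, hm⟩ : ∃ m : ℕ, m = M1 + 2 * R + (P.totalDegree + Q.totalDegree) := ⟨_, rfl⟩
  have hcod := cod ht P Q hQ hPQ m (by omega)
  obtain ⟨s, hs⟩ : ∃ s, s = (Sx t m).card := ⟨_, rfl⟩
  obtain ⟨z, hz⟩ : ∃ z : (Sx t (m - P.totalDegree)) ⊕ (Sx t (m - Q.totalDegree)) →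
      (Sx t m → E), z = fun i => coef E t m (zp P Q m i) := ⟨_, rfl⟩
  rw [← hz, ← hR, ← hs] at hcod
  obtain ⟨n, hn⟩ : ∃ n, n = finrank E (Submodule.span E (Set.range z)) := ⟨_, rfl⟩
  rw [← hn] at hcod
  -- the coefficients
  let ξ : Type := P.support ⊕ Q.support
  let c : Fin (Fintype.card ξ) → E := fun i =>
    Sum.elim (fun x : P.support => coeff x.1 P) (fun x : Q.support => coeff x.1 Q)
      ((Fintype.equivFin ξ).symm i)
  have hcP : ∀ x ∈ P.support, ∃ i, c i = coeff x P := by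
    intro x hx
    refine ⟨Fintype.equivFin ξ (Sum.inl ⟨x, hx⟩), ?_⟩
    simp only [c, Equiv.symm_apply_apply, Sum.elim_inl]
  have hcQ : ∀ x ∈ Q.support, ∃ i, c i = coeff x Q := by
    intro x hx
    refine ⟨Fintype.equivFin ξ (Sum.inr ⟨x, hx⟩), ?_⟩
    simp only [c, Equiv.symm_apply_apply, Sum.elim_inr]
  have hpos : ∀ r, 0 < finrank k0 (Ws k0 c r) := by
    intro r
    have : Nontrivial (Ws k0 c r) :=
      ⟨⟨0, ⟨1, Ws_one c r⟩, fun h => zero_ne_one (congrArg Subtype.val h)⟩⟩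
    exact finrank_pos
  have hm1 : (0 : ℝ) < (m : ℝ) + 1 := by positivity
  obtain ⟨r, hr⟩ := gr0 (fun r => finrank k0 (Ws k0 c r)) (Fintype.card ξ) (hpos 0)
    (fun r => by
      refine le_trans ?_ (card_Sx_le (Fintype.card ξ) r)
      have h1 := finrank_range_le_card (R := k0) (b := fun e : Sx (Fintype.card ξ) r => wv c e.1)
      rw [Fintype.card_coe] at h1
      exact h1) (ε / (8 * ((m : ℝ) + 1))) (by positivity)
  obtain ⟨β, hβ⟩ : ∃ β, β = finrank k0 (Ws k0 c (r + 1)) := ⟨_, rfl⟩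
  obtain ⟨β0, hβ0⟩ : ∃ β0, β0 = finrank k0 (Ws k0 c r) := ⟨_, rfl⟩
  have hr' : (β : ℝ) ≤ (1 + ε / (8 * ((m : ℝ) + 1))) * β0 := by
    rw [hβ, hβ0]
    exact hr
  -- a basis
  obtain ⟨bs⟩ : Nonempty (Basis (Fin β) k0 (Ws k0 c (r + 1))) := by
    rw [hβ]
    exact ⟨finBasis k0 _⟩
  let d : Fin β → E := fun l => (bs l : E)
  have hd : LinearIndependent k0 d :=
    bs.linearIndependent.map' (Submodule.subtype _) (Submodule.ker_subtype _)
  have hrep : ∀ x : Ws k0 c (r + 1), ∑ l, bs.repr x l • d l = (x : E) := by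
    intro x
    conv_rhs => rw [← bs.sum_repr x]
    rw [AddSubmonoidClass.coe_finsetSum]
    rfl
  obtain ⟨κ1, a1, ha1, hs1, hi1⟩ :=
    exists_linearIndependent' k0 (fun e : Sx (Fintype.card ξ) r => wv c e.1)
  obtain ⟨κ2, a2, ha2, hs2, hi2⟩ := exists_linearIndependent' E z
  have : Finite κ1 := Finite.of_injective a1 ha1
  have : Finite κ2 := Finite.of_injective a2 ha2
  have := Fintype.ofFinite κ1
  have := Fintype.ofFinite κ2
  have hc1 : Fintype.card κ1 = β0 := by
    rw [← finrank_span_eq_card hi1, hs1, hβ0]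
    rfl
  have hc2 : Fintype.card κ2 = n := by
    rw [← finrank_span_eq_card hi2, hs2, hn]
  -- the products
  have hv : ∀ (x : κ1) (y : κ2) (b : Sx t m), wv c (a1 x).1 * z (a2 y) b ∈ Ws k0 c (r + 1) := by
    intro x y b
    have h1 : z (a2 y) b = 0 ∨ ∃ i, c i = z (a2 y) b := by
      rw [hz]
      rcases a2 y with I | I
      · exact coeff_mono_mul c P hcP _ _
      · exact coeff_mono_mul c Q hcQ _ _
    rcases h1 with h1 | ⟨i, h1⟩
    · rw [h1, mul_zero]
      exact Submodule.zero_mem _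
    · rw [← h1]
      exact Ws_mul c r (a1 x) i
  let y : κ1 × κ2 → (Sx t m × Fin β → k0) := fun p b => bs.repr ⟨_, hv p.1 p.2 b.1⟩ b.2
  let Φ : (Sx t m × Fin β → k0) →ₗ[k0] (Sx t m → E) :=
    { toFun := fun f b => ∑ l, f (b, l) • d l
      map_add' := by
        intro f g
        funext b
        simp only [Pi.add_apply, add_smul, Finset.sum_add_distrib]
      map_smul' := by
        intro a f
        funext b
        simp only [Pi.smul_apply, smul_eq_mul, mul_smul, Finset.smul_sum, RingHom.id_apply] }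
  have hΦ : ∀ f, Φ f = fun b => ∑ l, f (b, l) • d l := fun f => rfl
  have hΦy : ∀ p : κ1 × κ2, Φ (y p) = wv c (a1 p.1).1 • z (a2 p.2) := by
    intro p
    funext b
    rw [hΦ]
    exact hrep ⟨_, hv p.1 p.2 b⟩
  have hli : LinearIndependent k0 y := by
    have h1 : LinearIndependent k0 (fun p : κ1 × κ2 => wv c (a1 p.1).1 • z (a2 p.2)) :=
      li_prod (fun x => wv c (a1 x).1) (fun y => z (a2 y)) hi1 hi2
    refine LinearIndependent.of_comp Φ ?_
    have h2 : (Φ ∘ y) = fun p : κ1 × κ2 => wv c (a1 p.1).1 • z (a2 p.2) := funext hΦy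
    rw [h2]
    exact h1
  have hV : finrank k0 (Submodule.span k0 (Set.range y)) = β0 * n := by
    rw [finrank_span_eq_card hli, Fintype.card_prod, hc1, hc2]
  refine ⟨m, β, d, Submodule.span k0 (Set.range y), hd, ?_, ?_, ?_⟩
  · -- the ideal
    intro f hf
    have h1 : ∀ f, toPol E t m (fun b => ∑ l, f (b, l) • d l) = toPol E t m (Φ f) := fun f => rfl
    rw [h1]
    refine Submodule.span_induction (p := fun f _ => ∃ A A' : MvPolynomial (Fin t) E,
      toPol E t m (Φ f) = A * P + A' * Q) ?_ ?_ ?_ ?_ hf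
    · rintro _ ⟨p, rfl⟩
      rw [hΦy, map_smul, hz]
      exact zp_ideal P Q m (by omega) (a2 p.2) (wv c (a1 p.1).1)
    · exact ⟨0, 0, by rw [map_zero, map_zero]; simp⟩
    · rintro f g _ _ ⟨A, A', h2⟩ ⟨B, B', h3⟩
      refine ⟨A + B, A' + B', ?_⟩
      rw [map_add, map_add, h2, h3]
      ring
    · rintro a f _ ⟨A, A', h2⟩
      refine ⟨algebraMap k0 E a • A, algebraMap k0 E a • A', ?_⟩
      have h3 : Φ (a • f) = algebraMap k0 E a • Φ f := by
        rw [map_smul]
        funext b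
        simp only [Pi.smul_apply, smul_eq_mul, Algebra.smul_def]
      rw [h3, map_smul, h2, smul_add, smul_mul_assoc, smul_mul_assoc]
  · rw [hV]
    have hs0 : 0 < s := by
      rw [hs]
      have h1 := Sx_lower t m ht
      have h2 : 0 < (m + 1) ^ t := by positivity
      by_contra h3
      push Not at h3
      rw [Nat.le_zero.1 h3, mul_zero] at h1
      omega
    have hn0 : 0 < n := by
      by_contra h
      push Not at h
      rw [Nat.le_zero.1 h, mul_zero, zero_add] at hcod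
      have h1 : R < (m + 1) ^ 2 := by
        have : R < m + 1 := by omega
        nlinarith
      have := Nat.mul_lt_mul_of_pos_right h1 hs0
      omega
    exact Nat.mul_pos (by rw [hβ0]; exact hpos r) hn0
  · rw [hV, Fintype.card_prod, Fintype.card_coe, Fintype.card_fin, ← hs]
    push_cast
    -- real inequalities
    have hmR : 2 * (R : ℝ) ≤ (m : ℝ) + 1 := by
      have : 2 * R ≤ m + 1 := by omega
      exact_mod_cast this
    have hmε : 8 * (R : ℝ) ≤ ε * ((m : ℝ) + 1) := by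
      have h1 : (M1 : ℝ) ≤ (m : ℝ) + 1 := by
        have : M1 ≤ m + 1 := by omega
        exact_mod_cast this
      have h2 := hM1.trans h1
      rw [div_le_iff₀ hε] at h2
      linarith
    have hcodr : ((m : ℝ) + 1) ^ 2 * (s - n) ≤ R * s := by
      have : (((m + 1) ^ 2 * s : ℕ) : ℝ) ≤ (((m + 1) ^ 2 * n + R * s : ℕ) : ℝ) := by
        exact_mod_cast hcod
      push_cast at this
      nlinarith
    exact num (Nat.cast_nonneg _) (Nat.cast_nonneg _) (Nat.cast_nonneg _) (Nat.cast_nonneg _)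
      hε hmR hmε hcodr hr'

end Pool.Agent.Y884.FG
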