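import Mathlib
import Pool.Agent.Y884.FG.Alg

/-!
# Values of polynomials with coefficients in a finite dimensional space

Job FG-G (helper731).
-/

set_option autoImplicit false

open Finset Module MvPolynomial

namespace Pool.Agent.Y884.FG

open Pool.Agent.Y742.DI

theorem supp_toPol {E : Type} [Field E] {t m : ℕ} (h : Sx t m → E) {s : Fin t →₀ ℕ}
    (hs : s ∈ (toPol E t m h).support) : ∃ b : Sx t m, s = fs b.1 ∧ h b ≠ 0 := by
  classical
  rw [MvPolynomial.mem_support_iff, toPol_apply, coeff_sum] at hs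
  obtain ⟨b, _, hb⟩ := Finset.exists_ne_zero_of_sum_ne_zero hs
  rw [coeff_monomial] at hb
  by_cases h1 : fs b.1 = s
  · rw [if_pos h1] at hb
    exact ⟨b, h1.symm, hb⟩
  · rw [if_neg h1] at hb
    exact absurd rfl hb

section gen

variable {k0 E K : Type} [Field k0] [Field E] [Field K] [Algebra k0 E] [Algebra E K]
  [Algebra k0 K] [IsScalarTower k0 E K]

theorem supp_toPol' {t m β : ℕ} (d : Fin β → E) (f : Sx t m × Fin β → k0) {s : Fin t →₀ ℕ}
    (hs : s ∈ (toPol E t m (fun b => ∑ l, f (b, l) • d l)).support) :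
    ∃ (b : Sx t m) (l : Fin β), s = fs b.1 ∧ f (b, l) ≠ 0 := by
  obtain ⟨b, h1, hb⟩ := supp_toPol _ hs
  obtain ⟨l, _, hl⟩ := Finset.exists_ne_zero_of_sum_ne_zero hb
  refine ⟨b, l, h1, fun h => ?_⟩
  rw [h, zero_smul] at hl
  exact hl rfl

/-- the values -/
noncomputable def Lm {t : ℕ} (u : Fin t → K) (m : ℕ) {β : ℕ} (d : Fin β → E) :
    (Sx t m × Fin β → k0) →ₗ[k0] K where
  toFun f := aeval u (toPol E t m (fun b => ∑ l, f (b, l) • d l))
  map_add' f g := by
    rw [← map_add, ← map_add]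
    congr 2
    funext b
    simp only [Pi.add_apply, add_smul, Finset.sum_add_distrib]
  map_smul' a f := by
    have h1 : (fun b => ∑ l, (a • f) (b, l) • d l) =
        algebraMap k0 E a • (fun b => ∑ l, f (b, l) • d l) := by
      funext b
      simp only [Pi.smul_apply, smul_eq_mul, mul_smul, ← Finset.smul_sum]
      rw [Algebra.smul_def]
    rw [h1, map_smul, map_smul, RingHom.id_apply, algebraMap_smul]

theorem Lm_apply {t : ℕ} (u : Fin t → K) (m : ℕ) {β : ℕ} (d : Fin β → E)
    (f : Sx t m × Fin β → k0) :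
    Lm u m d f = aeval u (toPol E t m (fun b => ∑ l, f (b, l) • d l)) := rfl

theorem Lm_inj {t : ℕ} {u : Fin t → K} (hu : AlgebraicIndependent E u) (m : ℕ) {β : ℕ}
    {d : Fin β → E} (hd : LinearIndependent k0 d) :
    LinearMap.ker (Lm (k0 := k0) u m d) = ⊥ := by
  rw [LinearMap.ker_eq_bot']
  intro f hf
  rw [Lm_apply] at hf
  have h1 : toPol E t m (fun b => ∑ l, f (b, l) • d l) = 0 := hu (by rw [map_zero]; exact hf)
  have h2 : (fun b => ∑ l, f (b, l) • d l) = (0 : Sx t m → E) := by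
    rw [← coef_toPol (fun b => ∑ l, f (b, l) • d l), h1, map_zero]
  funext b
  exact Fintype.linearIndependent_iff.1 hd (fun l => f (b.1, l)) (congrFun h2 b.1) b.2

theorem aeval_comb {t : ℕ} (u : Fin t → K) (A P A' Q : MvPolynomial (Fin t) E) :
    aeval u (A * P + A' * Q) = aeval u A * aeval u P + aeval u A' * aeval u Q := by
  rw [map_add, map_mul, map_mul]

theorem aeval_ne {t : ℕ} {u : Fin t → K} (hu : AlgebraicIndependent E u)
    {P : MvPolynomial (Fin t) E} (hP : P ≠ 0) : aeval u P ≠ 0 :=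
  fun h => hP (hu (by rw [map_zero]; exact h))

/-- echelon bases for all orderings, with the values -/
theorem ech_all {t : ℕ} {u : Fin t → K} (hu : AlgebraicIndependent E u) (m : ℕ) {β : ℕ}
    {d : Fin β → E} (hd : LinearIndependent k0 d) (V : Submodule k0 (Sx t m × Fin β → k0)) (N : ℕ)
    (hN : N = finrank k0 V) :
    ∃ (τ : (Sx t m × Fin β ≃ Fin (Fintype.card (Sx t m × Fin β))) → Fin N → Sx t m × Fin β)
      (f : (Sx t m × Fin β ≃ Fin (Fintype.card (Sx t m × Fin β))) → Fin N →
        (Sx t m × Fin β → k0)),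
      (∀ o, Function.Injective (τ o)) ∧ (∀ o a, f o a ∈ V) ∧
      (∀ o a b, (o (τ o a) : ℕ) < o b → f o a b = 0) ∧
      (∀ o, LinearIndependent k0 (fun a => Lm u m d (f o a))) ∧
      ∀ o o', Submodule.span k0 (Set.range fun a => Lm u m d (f o a)) =
        Submodule.span k0 (Set.range fun a => Lm u m d (f o' a)) := by
  have hech : ∀ o : Sx t m × Fin β ≃ Fin (Fintype.card (Sx t m × Fin β)),
      ∃ (τ : Fin N → Sx t m × Fin β) (f : Fin N → (Sx t m × Fin β → k0)),
      Function.Injective τ ∧ LinearIndependent k0 f ∧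
      Submodule.span k0 (Set.range f) = V ∧ ∀ a b, (o (τ a) : ℕ) < o b → f a b = 0 := by
    intro o
    rw [hN]
    exact ech (fun b => (o b : ℕ)) (fun a b h => o.injective (Fin.ext h)) V
  choose τ f hτ hf hfs hfz using hech
  have hs : ∀ o, Submodule.span k0 (Set.range fun a => Lm u m d (f o a)) = V.map (Lm u m d) := by
    intro o
    rw [← hfs o, Submodule.map_span, ← Set.range_comp]
    rfl
  refine ⟨τ, f, hτ, fun o a => ?_, fun o a b h => hfz o a b h,
    fun o => (hf o).map' (Lm u m d) (Lm_inj hu m hd), fun o o' => by rw [hs, hs]⟩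
  rw [← hfs o]
  exact Submodule.subset_span ⟨a, rfl⟩

end gen

end Pool.Agent.Y884.FG
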