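import Pool.Agent.Y731.FG.Stm
import Pool.Agent.Y884.FG.Lm

/-!
# The theorem on greatest common divisors with moving coefficients

Job FG-G (helper731).
-/

set_option autoImplicit false
set_option linter.unusedSectionVars false
set_option linter.unusedVariables false

namespace Pool.Agent.Y884.FG

open FF Filter MvPolynomial Pool.Agent.W603.LV Pool.Agent.W603.PV Pool.Agent.W603.CZ
open Pool.Agent.Y731.FG
open Pool.Agent.Y742.DI (Sx mem_Sx fs fs_apply toPol exists_order)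
open scoped Classical

theorem gr : S_GR := fun β s h0 h1 η hη => gr0 β s h0 h1 η hη

variable {I : Type} {𝒰 : Ultrafilter I} {k F : Type} [Field k] [IsAlgClosed k] [CharZero k]
  [Field F] {L : I → Type} [∀ i, Field (L i)] [∀ i, Algebra k (L i)] [∀ i, Algebra F (L i)]
  [∀ i, IsFF k (L i)]

theorem oo_mon {t : ℕ} (u : Fin t → UL 𝒰 L) (hu : ∀ j, u j ≠ 0) (s : Fin t →₀ ℕ) :
    ∀ᶠ ω in EV 𝒰 k L, oo (mon u s) ω = ∑ j, (s j : ℤ) * oo (u j) ω := by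
  have h1 : ∀ᶠ ω in EV 𝒰 k L, ∀ j, oo (u j ^ s j) ω = s j * oo (u j) ω :=
    eventually_all.2 fun j => oo_pow (u j) (s j)
  filter_upwards [h1, oo_prod Finset.univ (fun j => u j ^ s j)
    (fun j _ => pow_ne_zero _ (hu j))] with ω h2 h3
  unfold mon
  rw [h3]
  exact Finset.sum_congr rfl fun j _ => h2 j

theorem not_Tu {t : ℕ} {u : Fin t → UL 𝒰 L} {ω : Om k L} (h : ω ∉ Tu u) (j : Fin t) :
    oo (u j) ω = 0 := by
  by_contra hne
  exact h ⟨j, hne⟩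

variable (Δ : Dt 𝒰 k F L)

theorem low0 (hLOW : S_LOW Δ) {t : ℕ} (u : Fin t → UL 𝒰 L) (hu : ∀ j, u j ≠ 0)
    (f : MvPolynomial (Fin t) Δ.E) : ∃ e, Bd 𝒰 Δ.χ e ∧ (∀ ω, 0 ≤ e ω) ∧
      ∀ᶠ ω in EV 𝒰 k L, ω ∉ Tu u → (aeval u f = 0 ∨ -e ω ≤ oo (aeval u f) ω) := by
  obtain ⟨e, he, h⟩ := hLOW t u hu f
  refine ⟨fun ω => max (e ω) 0, he.pos, fun ω => le_max_right _ _, ?_⟩
  have h1 : ∀ᶠ ω in EV 𝒰 k L, ∀ s ∈ f.support,
      oo (mon u s) ω = ∑ j, (s j : ℤ) * oo (u j) ω :=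
    (eventually_all_finset _).2 fun s _ => oo_mon u hu s
  filter_upwards [h, h1] with ω h2 h3 hω
  rcases h2 0 (fun s hs => by
    rw [h3 s hs]
    refine le_of_eq (Finset.sum_eq_zero fun j _ => ?_).symm
    rw [not_Tu hω j, mul_zero]) with h4 | h4
  · exact Or.inl h4
  · right
    have := le_max_left (e ω) 0
    linarith

theorem mul_low {T : Set (Om k L)} {a : UL 𝒰 L} (p : UL 𝒰 L) {e : Om k L → ℤ}
    (h : ∀ᶠ ω in EV 𝒰 k L, ω ∉ T → (a = 0 ∨ -e ω ≤ oo a ω)) :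
    ∀ᶠ ω in EV 𝒰 k L, ω ∉ T → (a * p = 0 ∨ oo p ω - e ω ≤ oo (a * p) ω) := by
  by_cases ha : a = 0
  · exact Eventually.of_forall fun ω _ => Or.inl (by rw [ha, zero_mul])
  by_cases hp : p = 0
  · exact Eventually.of_forall fun ω _ => Or.inl (by rw [hp, mul_zero])
  filter_upwards [h, oo_mul ha hp] with ω h1 h2 hω
  right
  rw [h2]
  have := (h1 hω).resolve_left ha
  linarith

/-- elements of the ideal, at the places where the `u j` are units -/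
theorem off (hLOW : S_LOW Δ) {t : ℕ} (u : Fin t → UL 𝒰 L) (hu : ∀ j, u j ≠ 0)
    (P Q g : MvPolynomial (Fin t) Δ.E) (hg : ∃ A A' : MvPolynomial (Fin t) Δ.E,
      g = A * P + A' * Q) : ∃ e, Bd 𝒰 Δ.χ e ∧
      ∀ᶠ ω in EV 𝒰 k L, ω ∉ Tu u → (aeval u g = 0 ∨
        min (oo (aeval u P) ω) (oo (aeval u Q) ω) - e ω ≤ oo (aeval u g) ω) := by
  obtain ⟨A, A', rfl⟩ := hg
  obtain ⟨e, he, he0, h⟩ := low0 Δ hLOW u hu A
  obtain ⟨e', he', he0', h'⟩ := low0 Δ hLOW u hu A'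
  refine ⟨_, he.add he', ?_⟩
  filter_upwards [mul_low (aeval u P) h, mul_low (aeval u Q) h',
    oo_add (aeval u A * aeval u P) (aeval u A' * aeval u Q)] with ω h1 h2 h3 hω
  rw [aeval_comb]
  refine h3 _ ?_ ?_
  · rcases h1 hω with h4 | h4
    · exact Or.inl h4
    · right
      have := he0' ω
      have := min_le_left (oo (aeval u P) ω) (oo (aeval u Q) ω)
      linarith
  · rcases h2 hω with h4 | h4
    · exact Or.inl h4
    · right
      have := he0 ω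
      have := min_le_right (oo (aeval u P) ω) (oo (aeval u Q) ω)
      linarith

/-- the inclusion of the constants -/
noncomputable def inc : K0 𝒰 k L →+* Δ.E where
  toFun x := ⟨x.1, Δ.K0_le x.2⟩
  map_one' := rfl
  map_mul' _ _ := rfl
  map_zero' := rfl
  map_add' _ _ := rfl

/-- the algebra structure -/
@[reducible] noncomputable def algK : Algebra (K0 𝒰 k L) Δ.E := (inc Δ).toAlgebra

section lam

variable [Algebra (K0 𝒰 k L) Δ.E] [IsScalarTower (K0 𝒰 k L) Δ.E (UL 𝒰 L)]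

/-- the main estimate -/
theorem main_est (hLOW : S_LOW Δ) (hWR : S_WR Δ) (hLE : S_LE Δ) {t : ℕ} (u : Fin t → UL 𝒰 L)
    (hu : Δ.IsU u) (P Q : MvPolynomial (Fin t) Δ.E) (hP : P ≠ 0) (hQ : Q ≠ 0) (m : ℕ) {β : ℕ}
    (d : Fin β → Δ.E) (hd : LinearIndependent (K0 𝒰 k L) d)
    (V : Submodule (K0 𝒰 k L) (Sx t m × Fin β → K0 𝒰 k L))
    (hV : ∀ f ∈ V, ∃ A A' : MvPolynomial (Fin t) Δ.E,
      toPol Δ.E t m (fun b => ∑ l, f (b, l) • d l) = A * P + A' * Q)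
    (N : ℕ) (hN : N = Module.finrank (K0 𝒰 k L) V) :
    ∃ (W : UL 𝒰 L) (e : Om k L → ℤ), Bd 𝒰 Δ.χ e ∧ ∀ᶠ ω in EV 𝒰 k L,
      (N : ℤ) * (if ω ∈ Tu u then 0 else max (min (oo (aeval u P) ω) (oo (aeval u Q) ω)) 0) ≤
        oo W ω - ∑ b : Sx t m × Fin β, oo (mon u (fs b.1.1)) ω +
          ((Fintype.card (Sx t m × Fin β) - N : ℕ) : ℤ) * (m * ∑ j, |oo (u j) ω|) + e ω := by
  have hu0 : ∀ j, u j ≠ 0 := fun j => (hu.1 j).1
  -- echelon bases
  obtain ⟨τ, f, hτ, hfV, hfz, hGi, hGs⟩ := ech_all hu.2 m hd V N hN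
  let G : (Sx t m × Fin β ≃ Fin (Fintype.card (Sx t m × Fin β))) → Fin N → UL 𝒰 L :=
    fun o a => Lm u m d (f o a)
  let o0 : Sx t m × Fin β ≃ Fin (Fintype.card (Sx t m × Fin β)) := Fintype.equivFin _
  obtain ⟨W, hW⟩ : ∃ W, W = wr (uD Δ.D) (G o0) := ⟨_, rfl⟩
  have hne : ∀ o, wr (uD Δ.D) (G o) ≠ 0 := fun o => hWR.1 N _ (hGi o)
  have heq : ∀ᶠ ω in EV 𝒰 k L, ∀ o, oo (wr (uD Δ.D) (G o)) ω = oo W ω := by
    refine eventually_all.2 fun o => ?_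
    rw [hW]
    exact hWR.2.1 N _ _ (hGi o) (hGi o0) (hGs o o0)
  -- the values of `P` and `Q`
  have hPu : aeval u P ≠ 0 := aeval_ne hu.2 hP
  have hQu : aeval u Q ≠ 0 := aeval_ne hu.2 hQ
  obtain ⟨eP, heP, heP0, hlP⟩ := low0 Δ hLOW u hu0 P
  obtain ⟨eQ, heQ, heQ0, hlQ⟩ := low0 Δ hLOW u hu0 Q
  -- outside `Tu u`
  have hoff : ∀ a, ∃ e, Bd 𝒰 Δ.χ e ∧ ∀ᶠ ω in EV 𝒰 k L, ω ∉ Tu u → (G o0 a = 0 ∨
      min (oo (aeval u P) ω) (oo (aeval u Q) ω) - e ω ≤ oo (G o0 a) ω) := by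
    intro a
    exact off Δ hLOW u hu0 P Q _ (hV (f o0 a) (hfV o0 a))
  choose e1 he1 hoff using hoff
  obtain ⟨e2, he2, hwr⟩ := hWR.2.2 N (G o0)
  -- everywhere
  have hon := fun o => hLE t u hu.1 N (fun a => toPol Δ.E t m (fun b => ∑ l, f o a (b, l) • d l))
  choose e3 he3 hon using hon
  choose ord hord using fun ω : Om k L =>
    exists_order (fun b : Sx t m × Fin β => -((oo (mon u (fs b.1.1)) ω : ℤ) : ℝ))
  obtain ⟨E1, hE1⟩ : ∃ E1 : Om k L → ℤ, E1 = fun ω => ∑ a, max (e1 a ω) 0 := ⟨_, rfl⟩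
  obtain ⟨E3, hE3⟩ : ∃ E3 : Om k L → ℤ, E3 = fun ω => ∑ o, max (e3 o ω) 0 := ⟨_, rfl⟩
  have hE1b : Bd 𝒰 Δ.χ E1 := by
    rw [hE1]
    exact Bd.sum Δ.nonneg Finset.univ fun a _ => (he1 a).pos
  have hE3b : Bd 𝒰 Δ.χ E3 := by
    rw [hE3]
    exact Bd.sum Δ.nonneg Finset.univ fun o _ => (he3 o).pos
  refine ⟨W, fun ω => N * (E1 ω + (eP ω + eQ ω)) + max (e2 ω) 0 + E3 ω,
    (((hE1b.add (heP.add heQ)).smul N).add he2.pos).add hE3b, ?_⟩
  have hmon : ∀ᶠ ω in EV 𝒰 k L, ∀ b : Sx t m × Fin β,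
      oo (mon u (fs b.1.1)) ω = ∑ j, ((b.1.1 j : ℕ) : ℤ) * oo (u j) ω :=
    eventually_all.2 fun b => oo_mon u hu0 (fs b.1.1)
  filter_upwards [heq, hlP, hlQ, eventually_all.2 hoff, hwr, eventually_all.2 hon, hmon]
    with ω h1 h2 h3 h4 h5 h6 h7
  obtain ⟨S, hS⟩ : ∃ S : ℤ, S = ∑ j, |oo (u j) ω| := ⟨_, rfl⟩
  have hS0 : 0 ≤ S := by
    rw [hS]
    exact Finset.sum_nonneg fun _ _ => abs_nonneg _
  have hmb : ∀ b : Sx t m × Fin β, |oo (mon u (fs b.1.1)) ω| ≤ m * S := by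
    intro b
    rw [h7 b, hS, Finset.mul_sum]
    refine (Finset.abs_sum_le_sum_abs _ _).trans (Finset.sum_le_sum fun j _ => ?_)
    rw [abs_mul, Nat.abs_cast]
    refine mul_le_mul_of_nonneg_right ?_ (abs_nonneg _)
    have h8 := (mem_Sx b.1.1).1 b.1.2
    have h9 := Finset.single_le_sum (f := b.1.1) (fun _ _ => Nat.zero_le _) (Finset.mem_univ j)
    exact_mod_cast h9.trans h8
  -- the estimate for the adapted ordering
  have key : ∑ b : Sx t m × Fin β, oo (mon u (fs b.1.1)) ω -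
      ((Fintype.card (Sx t m × Fin β) - N : ℕ) : ℤ) * (m * S) - E3 ω ≤ oo W ω := by
    obtain ⟨o, ho⟩ : ∃ o, o = ord ω := ⟨_, rfl⟩
    have h8 := hord ω
    rw [← ho] at h8
    have h9 := h6 o (fun a => oo (mon u (fs (τ o a).1.1)) ω) (by
      intro a s hs
      obtain ⟨b, l, rfl, h10⟩ := supp_toPol' d (f o a) hs
      have h11 : (o (b, l) : ℕ) ≤ o (τ o a) := by
        by_contra hlt
        push Not at hlt
        exact h10 (hfz o a _ hlt)
      have h12 := h8 _ _ h11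
      have h13 : ((oo (mon u (fs (τ o a).1.1)) ω : ℤ) : ℝ) ≤
          ((oo (mon u (fs b.1)) ω : ℤ) : ℝ) := by
        simpa using h12
      exact_mod_cast h13)
    have h10 : ∑ a, oo (mon u (fs (τ o a).1.1)) ω - e3 o ω ≤ oo W ω := by
      rw [← h1 o]
      exact h9.resolve_left (hne o)
    have h11 : e3 o ω ≤ E3 ω := by
      rw [hE3]
      refine (le_max_left _ 0).trans ?_
      exact Finset.single_le_sum (f := fun o => max (e3 o ω) 0) (fun _ _ => le_max_right _ _)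
        (Finset.mem_univ o)
    have h12 : ∑ a, oo (mon u (fs (τ o a).1.1)) ω =
        ∑ b ∈ Finset.univ.image (τ o), oo (mon u (fs b.1.1)) ω := by
      rw [Finset.sum_image fun a _ b _ h => hτ o h]
    have h13 : ∑ b ∈ Finset.univ.image (τ o), oo (mon u (fs b.1.1)) ω +
        ∑ b ∈ (Finset.univ.image (τ o))ᶜ, oo (mon u (fs b.1.1)) ω =
        ∑ b : Sx t m × Fin β, oo (mon u (fs b.1.1)) ω := Finset.sum_add_sum_compl _ _
    have h14 : ∑ b ∈ (Finset.univ.image (τ o))ᶜ, oo (mon u (fs b.1.1)) ω ≤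
        ((Fintype.card (Sx t m × Fin β) - N : ℕ) : ℤ) * (m * S) := by
      have h15 : ((Finset.univ.image (τ o))ᶜ).card = Fintype.card (Sx t m × Fin β) - N := by
        rw [Finset.card_compl, Finset.card_image_of_injective _ (hτ o), Finset.card_univ,
          Fintype.card_fin]
      rw [← h15, ← nsmul_eq_mul, ← Finset.sum_const]
      exact Finset.sum_le_sum fun b _ => (le_abs_self _).trans (hmb b)
    linarith
  have hE30 : 0 ≤ E3 ω := by
    rw [hE3]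
    exact Finset.sum_nonneg fun _ _ => le_max_right _ _
  have hE10 : 0 ≤ E1 ω := by
    rw [hE1]
    exact Finset.sum_nonneg fun _ _ => le_max_right _ _
  have hNn : (0 : ℤ) ≤ N := Nat.cast_nonneg _
  have hP0 := heP0 ω
  have hQ0 := heQ0 ω
  have hA : 0 ≤ (N : ℤ) * (E1 ω + (eP ω + eQ ω)) := mul_nonneg hNn (by linarith)
  have h20 := le_max_right (e2 ω) 0
  have h21 := le_max_left (e2 ω) 0
  rw [← hS]
  by_cases hω : ω ∈ Tu u
  · rw [if_pos hω, mul_zero]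
    linarith
  · rw [if_neg hω]
    have hz : ∑ b : Sx t m × Fin β, oo (mon u (fs b.1.1)) ω = 0 := by
      refine Finset.sum_eq_zero fun b _ => ?_
      rw [h7 b]
      refine Finset.sum_eq_zero fun j _ => ?_
      rw [not_Tu hω j, mul_zero]
    have hk : 0 ≤ ((Fintype.card (Sx t m × Fin β) - N : ℕ) : ℤ) * (m * S) :=
      mul_nonneg (Nat.cast_nonneg _) (mul_nonneg (Nat.cast_nonneg _) hS0)
    rw [hz]
    have hmn := h5 (min (oo (aeval u P) ω) (oo (aeval u Q) ω) - E1 ω) (by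
      intro a
      rcases h4 a hω with h8 | h8
      · exact Or.inl h8
      · right
        have h9 : e1 a ω ≤ E1 ω := by
          rw [hE1]
          refine (le_max_left _ 0).trans ?_
          exact Finset.single_le_sum (f := fun a => max (e1 a ω) 0) (fun _ _ => le_max_right _ _)
            (Finset.mem_univ a)
        linarith)
    have hmn' := hmn.resolve_left (hne o0)
    rw [h1 o0] at hmn'
    have hPl := (h2 hω).resolve_left hPu
    have hQl := (h3 hω).resolve_left hQu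
    rcases le_total 0 (min (oo (aeval u P) ω) (oo (aeval u Q) ω)) with h8 | h8
    · rw [max_eq_left h8]
      have h9 : 0 ≤ (N : ℤ) * (eP ω + eQ ω) := mul_nonneg hNn (by linarith)
      have h10 : (N : ℤ) * (min (oo (aeval u P) ω) (oo (aeval u Q) ω) - E1 ω) =
        N * min (oo (aeval u P) ω) (oo (aeval u Q) ω) - N * E1 ω := by ring
      have h11 : (N : ℤ) * (E1 ω + (eP ω + eQ ω)) = N * E1 ω + N * (eP ω + eQ ω) := by ring
      linarith
    · rw [max_eq_right h8, mul_zero]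
      have h9 : -(eP ω + eQ ω) ≤ min (oo (aeval u P) ω) (oo (aeval u Q) ω) :=
        le_min (by linarith) (by linarith)
      have h10 : (N : ℤ) * (-(eP ω + eQ ω) - E1 ω) ≤
          N * (min (oo (aeval u P) ω) (oo (aeval u Q) ω) - E1 ω) :=
        mul_le_mul_of_nonneg_left (by linarith) hNn
      have h11 : (N : ℤ) * (-(eP ω + eQ ω) - E1 ω) = -(N * (E1 ω + (eP ω + eQ ω))) := by ring
      linarith

end lam

/-- summation over all places -/
theorem fin_est {t : ℕ} (u : Fin t → UL 𝒰 L) (hu0 : ∀ j, u j ≠ 0) {B : Type} [Fintype B]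
    (ex : B → (Fin t →₀ ℕ)) (W : UL 𝒰 L) (N κ : ℕ) (g e : Om k L → ℤ) (he : Bd 𝒰 Δ.χ e)
    (h : ∀ᶠ ω in EV 𝒰 k L, (N : ℤ) * (if ω ∈ Tu u then 0 else max (g ω) 0) ≤
      oo W ω - ∑ b : B, oo (mon u (ex b)) ω + κ * ∑ j, |oo (u j) ω| + e ω) :
    ∃ C : ℕ, ∀ᶠ i in (𝒰 : Filter I), ∀ T : Finset (Place k (L i)),
      (N : ℤ) * ∑ P ∈ T, (if (⟨i, P⟩ : Om k L) ∈ Tu u then 0 else g ⟨i, P⟩) ≤
        2 * κ * Hu k u i + C * Δ.χ i := by
  obtain ⟨C, hC⟩ := he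
  have hmon : ∀ᶠ ω in EV 𝒰 k L, ∀ b : B,
      oo (mon u (ex b)) ω = ∑ j, ((ex b j : ℕ) : ℤ) * oo (u j) ω :=
    eventually_all.2 fun b => oo_mon u hu0 (ex b)
  refine ⟨C, ?_⟩
  filter_upwards [hC, ev_iff.1 h, ev_iff.1 hmon] with i h1 h2 h3 T
  obtain ⟨T1, hT1⟩ := exists_supp (k := k) (Finset.univ : Finset (Option (Fin t)))
    (fun o => o.elim (rep W i) (fun j => rep (u j) i))
  have hW0 : ∑ P ∈ T ∪ T1, oo W (⟨i, P⟩ : Om k L) = 0 :=
    sum_ord_finset (rep W i) _ fun P hP =>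
      Finset.mem_union_right _ (hT1 none (Finset.mem_univ _) P hP)
  have hu1 : ∀ j, ∑ P ∈ T ∪ T1, oo (u j) (⟨i, P⟩ : Om k L) = 0 := fun j =>
    sum_ord_finset (rep (u j) i) _ fun P hP =>
      Finset.mem_union_right _ (hT1 (some j) (Finset.mem_univ _) P hP)
  have hM : ∑ P ∈ T ∪ T1, ∑ b : B, oo (mon u (ex b)) (⟨i, P⟩ : Om k L) = 0 := by
    rw [Finset.sum_comm]
    refine Finset.sum_eq_zero fun b _ => ?_
    rw [Finset.sum_congr rfl fun P _ => h3 P b, Finset.sum_comm]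
    refine Finset.sum_eq_zero fun j _ => ?_
    rw [← Finset.mul_sum, hu1 j, mul_zero]
  have hA : ∑ P ∈ T ∪ T1, ∑ j, |oo (u j) (⟨i, P⟩ : Om k L)| ≤ 2 * Hu k u i := by
    rw [Finset.sum_comm]
    unfold Hu
    rw [Finset.mul_sum]
    exact Finset.sum_le_sum fun j _ => sum_abs_ord (rep (u j) i) _
  have hstep : (N : ℤ) * ∑ P ∈ T, (if (⟨i, P⟩ : Om k L) ∈ Tu u then 0 else g ⟨i, P⟩) ≤
      ∑ P ∈ T ∪ T1, (N : ℤ) * (if (⟨i, P⟩ : Om k L) ∈ Tu u then 0 else max (g ⟨i, P⟩) 0) := by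
    rw [← Finset.mul_sum]
    refine mul_le_mul_of_nonneg_left ?_ (Nat.cast_nonneg _)
    calc ∑ P ∈ T, (if (⟨i, P⟩ : Om k L) ∈ Tu u then 0 else g ⟨i, P⟩) ≤
          ∑ P ∈ T, (if (⟨i, P⟩ : Om k L) ∈ Tu u then 0 else max (g ⟨i, P⟩) 0) := by
          refine Finset.sum_le_sum fun P _ => ?_
          split_ifs
          · exact le_rfl
          · exact le_max_left _ _
      _ ≤ _ := by
          refine Finset.sum_le_sum_of_subset_of_nonneg Finset.subset_union_left fun P _ _ => ?_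
          split_ifs
          · exact le_rfl
          · exact le_max_right _ _
  have hsum : ∑ P ∈ T ∪ T1, (N : ℤ) *
      (if (⟨i, P⟩ : Om k L) ∈ Tu u then 0 else max (g ⟨i, P⟩) 0) ≤
      ∑ P ∈ T ∪ T1, (oo W (⟨i, P⟩ : Om k L) - ∑ b : B, oo (mon u (ex b)) (⟨i, P⟩ : Om k L) +
        κ * ∑ j, |oo (u j) (⟨i, P⟩ : Om k L)| + e ⟨i, P⟩) :=
    Finset.sum_le_sum fun P _ => h2 P
  rw [Finset.sum_add_distrib, Finset.sum_add_distrib, Finset.sum_sub_distrib, hW0, hM] at hsum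
  have h4 := h1 (T ∪ T1)
  have h5 : ∑ P ∈ T ∪ T1, (κ : ℤ) * ∑ j, |oo (u j) (⟨i, P⟩ : Om k L)| ≤ κ * (2 * Hu k u i) := by
    rw [← Finset.mul_sum]
    exact mul_le_mul_of_nonneg_left hA (Nat.cast_nonneg _)
  linarith

theorem gcd (Δ : Dt 𝒰 k F L) (hLOW : S_LOW Δ) (hWR : S_WR Δ) (hLE : S_LE Δ) (hC : S_C Δ) :
    S_G Δ := by
  intro t u hu P Q hP hQ hPQ
  have hu0 : ∀ j, u j ≠ 0 := fun j => (hu.1 j).1
  rcases Nat.eq_zero_or_pos t with ht | ht
  · subst ht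
    have h1 : aeval u P ∈ Δ.E := by
      rw [P.eq_C_of_isEmpty, aeval_C]
      exact (coeff 0 P).2
    have h2 : Bd 𝒰 Δ.χ (fun ω : Om k L => if ω ∈ Tu u then 0 else
        min (oo (aeval u P) ω) (oo (aeval u Q) ω)) := by
      refine (Δ.bd_E h1).mono (Eventually.of_forall fun ω => ?_)
      split_ifs
      · exact abs_nonneg _
      · exact (min_le_left _ _).trans (le_abs_self _)
    exact h2.ng (Eventually.of_forall fun i => Hu_nonneg u i)
  intro ε hε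
  let _ : Algebra (K0 𝒰 k L) Δ.E := algK Δ
  have : IsScalarTower (K0 𝒰 k L) Δ.E (UL 𝒰 L) := IsScalarTower.of_algebraMap_eq fun x => rfl
  obtain ⟨m, β, d, V, hd, hV, hpos, hnum⟩ := alg (K0 𝒰 k L) ht P Q hQ hPQ.symm ε hε
  obtain ⟨N, hN⟩ : ∃ N, N = Module.finrank (K0 𝒰 k L) V := ⟨_, rfl⟩
  rw [← hN] at hpos hnum
  obtain ⟨W, e, he, h⟩ := main_est Δ hLOW hWR hLE u hu P Q hP hQ m d hd V hV N hN
  obtain ⟨C, hCC⟩ := fin_est Δ u hu0 (fun b : Sx t m × Fin β => fs b.1.1) W N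
    ((Fintype.card (Sx t m × Fin β) - N) * m)
    (fun ω => min (oo (aeval u P) ω) (oo (aeval u Q) ω)) e he (by
      filter_upwards [h] with ω h1
      refine h1.trans (le_of_eq ?_)
      push_cast
      ring)
  have hNc : N ≤ Fintype.card (Sx t m × Fin β) := by
    rw [hN]
    refine (Submodule.finrank_le _).trans ?_
    rw [Module.finrank_fintype_fun_eq_card]
  have hNr : (0 : ℝ) < N := by exact_mod_cast hpos
  refine ⟨C / N, ?_⟩
  filter_upwards [hCC] with i h1 T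
  have h2 := h1 T
  have h3 : (N : ℝ) * ((∑ P_1 ∈ T, (if (⟨i, P_1⟩ : Om k L) ∈ Tu u then 0 else
      min (oo (aeval u P) (⟨i, P_1⟩ : Om k L)) (oo (aeval u Q) (⟨i, P_1⟩ : Om k L))) : ℤ) : ℝ) ≤
      2 * (((Fintype.card (Sx t m × Fin β) : ℝ) - N) * m) * (Hu k u i : ℝ) + C * (Δ.χ i : ℝ) := by
    have h4 : ((N : ℤ) * (∑ P_1 ∈ T, (if (⟨i, P_1⟩ : Om k L) ∈ Tu u then 0 else
      min (oo (aeval u P) (⟨i, P_1⟩ : Om k L)) (oo (aeval u Q) (⟨i, P_1⟩ : Om k L)))) : ℝ) ≤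
      ((2 * (((Fintype.card (Sx t m × Fin β) - N) * m : ℕ) : ℤ) * Hu k u i + C * Δ.χ i : ℤ) : ℝ) := by
      exact_mod_cast h2
    push_cast [Nat.cast_sub hNc] at h4 ⊢
    exact h4
  have hH : (0 : ℝ) ≤ (Hu k u i : ℝ) := by exact_mod_cast Hu_nonneg u i
  have h5 := mul_le_mul_of_nonneg_right hnum hH
  have h6 : (C : ℝ) / N * (Δ.χ i : ℝ) = C * (Δ.χ i : ℝ) / N := by ring
  rw [h6]
  have h7 : (N : ℝ) * (ε * (Hu k u i : ℝ) + C * (Δ.χ i : ℝ) / N) =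
      ε * N * (Hu k u i : ℝ) + C * (Δ.χ i : ℝ) := by
    field_simp
  refine le_of_mul_le_mul_left ?_ hNr
  rw [h7]
  refine h3.trans ?_
  linarith

end Pool.Agent.Y884.FG
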